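import Pool.Agent.H87.PR.Push

/-!
The union of an arbitrary instance with an instance accepted by the relaxations.
-/

namespace Pool.H87.PR

open Finset Pool.H66.RZ Pool.Agent.H60.DTO
open scoped Classical RealInnerProductSpace

noncomputable section

variable {V₁ W₁ V₂ W₂ : Type} {d R₁ R₂ : ℕ}

/-- The same instance, in the other copy of the definition. -/
def toD {V W : Type} {R : ℕ} (Φ : LabelCover V W d R) : Pool.Agent.H76.DTO.LabelCover V W d R :=
  ⟨Φ.E, Φ.π, fun e he a => by convert Φ.dto1 e he a⟩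

/-- The same instance, in the other copy of the definition. -/
def ofD {V W : Type} {R : ℕ} (Φ : Pool.Agent.H76.DTO.LabelCover V W d R) : LabelCover V W d R :=
  ⟨Φ.E, Φ.π, fun e he a => by convert Φ.dto1 e he a⟩

/-- The union: pairs of vertices, pairs of edges, disjoint union of the labels. -/
def prod (X : LabelCover V₁ W₁ d R₁) (G : Pool.Agent.H76.DTO.LabelCover V₂ W₂ d R₂) :
    LabelCover (V₁ × V₂) (W₁ × W₂) d (R₁ + R₂) := ofD (uni (toD X) G)

variable (X : LabelCover V₁ W₁ d R₁) (G : Pool.Agent.H76.DTO.LabelCover V₂ W₂ d R₂)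

lemma prod_nonempty (h1 : X.E.Nonempty) (h2 : G.E.Nonempty) : (prod X G).E.Nonempty :=
  uni_nonempty (toD X) G h1 h2

lemma mem_prod (e : (V₁ × V₂) × (W₁ × W₂)) :
    e ∈ (prod X G).E ↔ (e.1.1, e.2.1) ∈ X.E ∧ (e.1.2, e.2.2) ∈ G.E :=
  mem_uni (toD X) G (e.1.1, e.2.1) (e.1.2, e.2.2)

lemma prod_pi (e : (V₁ × V₂) × (W₁ × W₂)) (b : Fin (d * (R₁ + R₂))) : (prod X G).π e b =
    lE R₁ R₂ (Sum.map (X.π (e.1.1, e.2.1)) (G.π (e.1.2, e.2.2)) ((rE d R₁ R₂).symm b)) := rfl

lemma prod_fr (hR1 : 0 < R₁) (hR2 : 0 < R₂) (hd : 0 < d) (v₁ v₂ : ℝ)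
    (hv1 : ∀ f g, fr X f g ≤ v₁) (hv2 : ∀ f g, G.frac f g ≤ v₂) (h1 : X.E.Nonempty)
    (h2 : G.E.Nonempty) (f : V₁ × V₂ → Fin (R₁ + R₂)) (g : W₁ × W₂ → Fin (d * (R₁ + R₂))) :
    fr (prod X G) f g ≤ v₁ + v₂ := by
  refine le_trans (le_of_eq ?_) (uni_frac (toD X) G hR1 hR2 hd v₁ v₂ (fun f g => ?_) hv2 h1 h2 f g)
  · unfold fr Pool.Agent.H76.DTO.LabelCover.frac
    congr
  · refine le_trans (le_of_eq ?_) (hv1 f g)
    unfold fr Pool.Agent.H76.DTO.LabelCover.frac
    congr

lemma prod_sat (f : V₁ → Fin R₁) (g : W₁ → Fin (d * R₁)) (h : Sat X f g) :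
    Sat (prod X G) (fun v => lE R₁ R₂ (Sum.inl (f v.1)))
      (fun w => rE d R₁ R₂ (Sum.inl (g w.1))) := by
  intro e he
  rw [prod_pi, Equiv.symm_apply_apply]
  have := h _ ((mem_prod X G e).1 he).1
  show lE R₁ R₂ (Sum.inl (X.π (e.1.1, e.2.1) (g e.2.1))) = _
  rw [this]

/-- A common-sum solution for the second instance is a solution for the union. -/
def prodSol {N : ℕ} (S : Pool.Agent.H76.DTO.PerfectSolution G N) (z : EuclideanSpace ℝ (Fin N))
    (hz : ‖z‖ = 1) (hx : ∀ v, ∑ a, S.x v a = z) (hy : ∀ w, ∑ b, S.y w b = z) :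
    SdpSolution (prod X G) N where
  x v a := Sum.elim (fun _ => 0) (S.x v.2) ((lE R₁ R₂).symm a)
  y w b := Sum.elim (fun _ => 0) (S.y w.2) ((rE d R₁ R₂).symm b)
  z := z
  norm_z := hz
  sum_x v := by
    rw [sum_lE]
    simp only [Equiv.symm_apply_apply, Sum.elim_inl, Sum.elim_inr, Finset.sum_const_zero, zero_add]
    exact hx _
  sum_y w := by
    rw [sum_rE]
    simp only [Equiv.symm_apply_apply, Sum.elim_inl, Sum.elim_inr, Finset.sum_const_zero, zero_add]
    exact hy _
  orth_x := by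
    intro v a a' h
    obtain ⟨c, rfl⟩ := (lE R₁ R₂).surjective a
    obtain ⟨c', rfl⟩ := (lE R₁ R₂).surjective a'
    rcases c with a | a <;> rcases c' with a' | a' <;>
      simp only [Equiv.symm_apply_apply, Sum.elim_inl, Sum.elim_inr, inner_zero_left,
        inner_zero_right]
    exact S.orth_x _ _ _ (by rintro rfl; exact h rfl)
  orth_y := by
    intro w a a' h
    obtain ⟨c, rfl⟩ := (rE d R₁ R₂).surjective a
    obtain ⟨c', rfl⟩ := (rE d R₁ R₂).surjective a'
    rcases c with a | a <;> rcases c' with a' | a' <;>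
      simp only [Equiv.symm_apply_apply, Sum.elim_inl, Sum.elim_inr, inner_zero_left,
        inner_zero_right]
    exact S.orth_y _ _ _ (by rintro rfl; exact h rfl)
  perfect := by
    intro e he
    have h2 := ((mem_prod X G e).1 he).2
    rw [sum_rE]
    simp only [prod_pi, Equiv.symm_apply_apply, Sum.elim_inl, Sum.elim_inr, Sum.map_inl,
      Sum.map_inr, inner_zero_left, Finset.sum_const_zero, zero_add]
    exact S.perfect _ h2

/-- An integral affine solution for the second instance is a solution for the union. -/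
def prodAff (T : AffineSolution G 1) : AipSolution (prod X G) where
  s v a := Sum.elim (fun _ => 0) (T.x v.2) ((lE R₁ R₂).symm a)
  t w b := Sum.elim (fun _ => 0) (T.y w.2) ((rE d R₁ R₂).symm b)
  sum_s v := by
    rw [sum_lE]
    simp only [Equiv.symm_apply_apply, Sum.elim_inl, Sum.elim_inr, Finset.sum_const_zero, zero_add]
    exact T.sum_x _
  sum_t w := by
    rw [sum_rE]
    simp only [Equiv.symm_apply_apply, Sum.elim_inl, Sum.elim_inr, Finset.sum_const_zero, zero_add]
    exact T.sum_y _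
  edge := by
    intro e he a
    have h2 := ((mem_prod X G e).1 he).2
    obtain ⟨c, rfl⟩ := (lE R₁ R₂).surjective a
    rcases c with a | a
    · have h := sum_fib_inl (toD X) G
        (fun b => Sum.elim (fun _ => (0:ℤ)) (T.y e.2.2) ((rE d R₁ R₂).symm b)) e a
      simp only [Equiv.symm_apply_apply, Sum.elim_inl, Finset.sum_const_zero] at h ⊢
      exact h.symm
    · have h := sum_fib_inr (toD X) G
        (fun b => Sum.elim (fun _ => (0:ℤ)) (T.y e.2.2) ((rE d R₁ R₂).symm b)) e a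
      simp only [Equiv.symm_apply_apply, Sum.elim_inr] at h ⊢
      rw [T.edge _ h2 a]
      exact h.symm

end

end Pool.H87.PR
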