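import Pool.Agent.H87.PR.Transfer
import Pool.Agent.H60.DTO.Fields
import Pool.Agent.H90.DG.Main

/-!
Monotone circuits for instances promised to be accepted by the relaxations.
-/

namespace Pool.H87.PR

open Finset Pool.H66.RZ Pool.Agent.H60.DTO
open scoped Classical

noncomputable section

/-- The lower bound for all instances. -/
def MainBound : Prop := ∃ C : ℝ, 0 < C ∧ ∀ d R : ℕ, 2 ≤ d → 2 ≤ R → ∀ ε : ℝ,
  C * Real.log (d * R) / R ≤ ε → ε ≤ 1 → ∃ N₀ : ℕ, ∀ N ≥ N₀,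
    ∀ K : MonotoneCircuit (Var N d R), Separates K ε →
      Real.exp ((N : ℝ) ^ (1 / 4 : ℝ)) ≤ K.size

lemma frac_le_value {V W : Type} {d R : ℕ} (Φ : Pool.Agent.H76.DTO.LabelCover V W d R)
    (f : V → Fin R) (g : W → Fin (d * R)) : Φ.frac f g ≤ Φ.value := by
  unfold Pool.Agent.H76.DTO.LabelCover.value
  have hb : BddAbove (Set.range (fun fg : (V → Fin R) × (W → Fin (d * R)) =>
      Φ.frac fg.1 fg.2)) := by
    refine ⟨1, ?_⟩
    rintro _ ⟨fg, rfl⟩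
    unfold Pool.Agent.H76.DTO.LabelCover.frac
    apply div_le_one_of_le₀ _ (Nat.cast_nonneg _)
    exact_mod_cast Finset.card_filter_le _ _
  exact le_ciSup hb (f, g)

lemma num_aip (C : ℝ) (hC : 0 < C) (d n R : ℕ) (hd : 2 ≤ d) (hn : (36 * C * d) ^ 2 ≤ n)
    (hn1 : 1 ≤ n) (hR1 : n ≤ R) (hR : R ≤ 9 * n) :
    C * Real.log (d * n) / n ≤ (R : ℝ) ^ (-(1 / 15) : ℝ) := by
  have hn0 : (1:ℝ) ≤ n := by exact_mod_cast hn1
  have hR1' : (1:ℝ) ≤ R := by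
    have : (n:ℝ) ≤ R := by exact_mod_cast hR1
    linarith
  have hR' : (R:ℝ) ≤ 9 * n := by exact_mod_cast hR
  have hd' : (2:ℝ) ≤ d := by exact_mod_cast hd
  have h1 : Real.log (d * n) ≤ (d * n) ^ (1 / 4 : ℝ) / (1 / 4) :=
    Real.log_le_rpow_div (by positivity) (by norm_num)
  have h2 : (R : ℝ) ^ (1 / 15 : ℝ) ≤ (9 * n) ^ (1 / 4 : ℝ) := by
    calc (R : ℝ) ^ (1 / 15 : ℝ) ≤ (R : ℝ) ^ (1 / 4 : ℝ) :=
          Real.rpow_le_rpow_of_exponent_le hR1' (by norm_num)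
      _ ≤ (9 * n) ^ (1 / 4 : ℝ) := Real.rpow_le_rpow (by positivity) hR' (by norm_num)
  have h3 : ((d:ℝ) * n) ^ (1 / 4 : ℝ) * (9 * n) ^ (1 / 4 : ℝ) ≤ (9 * d) * √n := by
    rw [← Real.mul_rpow (by positivity) (by positivity), Real.sqrt_eq_rpow]
    have e : (d:ℝ) * n * (9 * n) = (9 * d) * ((n:ℝ) ^ (2:ℝ)) := by
      rw [Real.rpow_two]; ring
    rw [e, Real.mul_rpow (by positivity) (by positivity), ← Real.rpow_mul (by positivity)]
    have e2 : (2:ℝ) * (1 / 4) = 1 / 2 := by norm_num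
    rw [e2]
    gcongr
    calc (9 * (d:ℝ)) ^ (1 / 4 : ℝ) ≤ (9 * (d:ℝ)) ^ (1:ℝ) :=
          Real.rpow_le_rpow_of_exponent_le (by linarith) (by norm_num)
      _ = 9 * d := Real.rpow_one _
  have h4 : 36 * C * d ≤ √n := Real.le_sqrt_of_sq_le hn
  rw [Real.rpow_neg (by positivity), ← one_div, div_le_div_iff₀ (by positivity) (by positivity)]
  calc C * Real.log (d * n) * (R : ℝ) ^ (1 / 15 : ℝ)
      ≤ C * ((d * n) ^ (1 / 4 : ℝ) / (1 / 4)) * (9 * n) ^ (1 / 4 : ℝ) := by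
        have : 0 ≤ Real.log (d * n) := Real.log_nonneg (by nlinarith)
        gcongr
    _ = 4 * C * (((d:ℝ) * n) ^ (1 / 4 : ℝ) * (9 * n) ^ (1 / 4 : ℝ)) := by ring
    _ ≤ 4 * C * ((9 * d) * √n) := by gcongr
    _ = (36 * C * d) * √n := by ring
    _ ≤ √n * √n := by gcongr
    _ = 1 * n := by rw [Real.mul_self_sqrt (by positivity), one_mul]

/-- **Exponential lower bound for monotone circuits under the promise that the combined
semidefinite and affine relaxation accepts.** -/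
theorem sdp_aip (hmain : MainBound) : ∀ d : ℕ, 2 ≤ d → ∃ n₁ : ℕ, ∀ n ≥ n₁, ∃ R : ℕ,
    n ≤ R ∧ R ≤ 9 * n ∧ ∃ N₁ : ℕ, ∀ N ≥ N₁, ∀ K : MonotoneCircuit (Var N d R),
      SeparatesOn K (12 * (R : ℝ) ^ (-(1 / 15) : ℝ)) SdpAipAccepts →
        Real.exp ((N : ℝ) ^ (1 / 5 : ℝ)) ≤ K.size := by
  obtain ⟨C, hC, h⟩ := promised hmain
  intro d hd
  refine ⟨⌈(36 * C * d) ^ 2⌉₊ + 2, fun n hn => ?_⟩
  have hn1 : (36 * C * d) ^ 2 ≤ n := by
    refine (Nat.le_ceil _).trans ?_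
    have : ⌈(36 * C * d) ^ 2⌉₊ ≤ n := by omega
    exact_mod_cast this
  obtain ⟨R₂, hn2, hn3, V, W, hV, hW, G, M, S, T, hG, ⟨z, hz, hx, hy⟩, ⟨c1, c2⟩, hval⟩ :=
    gap d n hd (by omega)
  have hnum := num_aip C hC d n (n + R₂) hd hn1 (by omega) (by omega) (by omega)
  have hle1 : ((n + R₂ : ℕ) : ℝ) ^ (-(1 / 15) : ℝ) ≤ 1 := by
    apply Real.rpow_le_one_of_one_le_of_nonpos
    · have : 1 ≤ n + R₂ := by omega
      exact_mod_cast this
    · norm_num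
  obtain ⟨N₁, hN₁⟩ := h d n R₂ hd (by omega) (by omega) (((n + R₂ : ℕ) : ℝ) ^ (-(1 / 15) : ℝ))
    hnum hle1 V W G hG (10 * (R₂ : ℝ) ^ (-(1 / 15) : ℝ)) hval (fun N => SdpAipAccepts) (by
      intro N₀ N ι ρ κ σ hρ hσ X
      refine ⟨M, pushSol ι ρ κ σ hρ hσ _ (prodSol X G S z hz hx hy),
        pushAff ι ρ κ σ hρ hσ _ (prodAff X G T), ?_, ?_⟩
      · intro v a h
        obtain ⟨c, rfl⟩ := (lE n R₂).surjective a
        rcases c with a | a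
        · exfalso
          apply h
          show Sum.elim (fun _ => (0:ℤ)) (T.x (ρ v).2) ((lE n R₂).symm (lE n R₂ (Sum.inl a))) = 0
          rw [Equiv.symm_apply_apply]
          rfl
        · have h' : T.x (ρ v).2 a ≠ 0 := by
            intro h0
            apply h
            show Sum.elim (fun _ => (0:ℤ)) (T.x (ρ v).2) ((lE n R₂).symm (lE n R₂ (Sum.inr a))) = 0
            rw [Equiv.symm_apply_apply]
            exact h0
          show Sum.elim (fun _ => 0) (S.x (ρ v).2) ((lE n R₂).symm (lE n R₂ (Sum.inr a))) ≠ 0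
          rw [Equiv.symm_apply_apply]
          exact c1 _ _ h'
      · intro v a h
        obtain ⟨c, rfl⟩ := (rE d n R₂).surjective a
        rcases c with a | a
        · exfalso
          apply h
          show Sum.elim (fun _ => (0:ℤ)) (T.y (σ v).2)
            ((rE d n R₂).symm (rE d n R₂ (Sum.inl a))) = 0
          rw [Equiv.symm_apply_apply]
          rfl
        · have h' : T.y (σ v).2 a ≠ 0 := by
            intro h0
            apply h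
            show Sum.elim (fun _ => (0:ℤ)) (T.y (σ v).2)
              ((rE d n R₂).symm (rE d n R₂ (Sum.inr a))) = 0
            rw [Equiv.symm_apply_apply]
            exact h0
          show Sum.elim (fun _ => 0) (S.y (σ v).2) ((rE d n R₂).symm (rE d n R₂ (Sum.inr a))) ≠ 0
          rw [Equiv.symm_apply_apply]
          exact c2 _ _ h')
  refine ⟨n + R₂, by omega, by omega, N₁, fun N hN K hK => ?_⟩
  refine hN₁ N hN K _ ?_ hK
  have hR0 : (0:ℝ) < R₂ := by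
    have : 0 < R₂ := by omega
    exact_mod_cast this
  have h1 : (R₂ : ℝ) ^ (-(1 / 15) : ℝ) ≤ 11 / 10 * ((n + R₂ : ℕ) : ℝ) ^ (-(1 / 15) : ℝ) := by
    have h2 : (((2:ℝ) * R₂)) ^ (-(1 / 15) : ℝ) ≤ ((n + R₂ : ℕ) : ℝ) ^ (-(1 / 15) : ℝ) := by
      apply Real.rpow_le_rpow_of_nonpos
      · have : 0 < n + R₂ := by omega
        exact_mod_cast this
      · have : n + R₂ ≤ 2 * R₂ := by omega
        exact_mod_cast this
      · norm_num
    rw [Real.mul_rpow (by norm_num) hR0.le] at h2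
    have h3 : (2:ℝ) ^ (1 / 15 : ℝ) ≤ 11 / 10 := by
      have e : (11 / 10 : ℝ) = ((11 / 10 : ℝ) ^ (15:ℕ)) ^ (1 / 15 : ℝ) := by
        rw [← Real.rpow_natCast, ← Real.rpow_mul (by norm_num)]
        norm_num
      rw [e]
      exact Real.rpow_le_rpow (by norm_num) (by norm_num) (by norm_num)
    have h4 : (2:ℝ) ^ (1 / 15 : ℝ) * (2:ℝ) ^ (-(1 / 15) : ℝ) = 1 := by
      rw [← Real.rpow_add (by norm_num)]
      norm_num
    have h5 : 0 < (2:ℝ) ^ (-(1 / 15) : ℝ) := by positivity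
    calc (R₂ : ℝ) ^ (-(1 / 15) : ℝ) =
          (2:ℝ) ^ (1 / 15 : ℝ) * ((2:ℝ) ^ (-(1 / 15) : ℝ) * (R₂ : ℝ) ^ (-(1 / 15) : ℝ)) := by
          rw [← mul_assoc, h4, one_mul]
      _ ≤ 11 / 10 * ((n + R₂ : ℕ) : ℝ) ^ (-(1 / 15) : ℝ) := by gcongr
  linarith

/-- The optimal exponent for the semidefinite relaxation. -/
def sdpExp (m : ℕ) : ℝ := (√((2 : ℝ) ^ m) - 1) / (√((2 : ℝ) ^ m) + 1)

lemma sdpExp_nonneg (m : ℕ) : 0 ≤ sdpExp m := by
  unfold sdpExp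
  have h1 : (1:ℝ) ≤ √((2 : ℝ) ^ m) := by
    rw [Real.one_le_sqrt]
    exact one_le_pow₀ (by norm_num)
  apply div_nonneg <;> linarith

lemma sdpExp_lt (m : ℕ) : sdpExp m < 1 := by
  unfold sdpExp
  have h1 : (0:ℝ) ≤ √((2 : ℝ) ^ m) := Real.sqrt_nonneg _
  rw [div_lt_one (by linarith)]
  linarith

lemma num_sdp (C : ℝ) (hC : 0 < C) (d : ℕ) (hd : 2 ≤ d) (c : ℝ) (hc1 : c < 1) :
    ∃ k₁ : ℕ, ∀ k ≥ k₁, C * Real.log (d * (2:ℝ) ^ k) / (2:ℝ) ^ k ≤ ((2:ℝ) ^ k) ^ (-c) := by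
  set η := (1 - c) / 2 with hη
  have hη0 : 0 < η := by rw [hη]; linarith
  have hd' : (2:ℝ) ≤ d := by exact_mod_cast hd
  have h2 : 1 < (2:ℝ) ^ η := Real.one_lt_rpow (by norm_num) hη0
  obtain ⟨k₁, hk₁⟩ := pow_unbounded_of_one_lt (C * (d:ℝ) ^ η / η) h2
  refine ⟨k₁, fun k hk => ?_⟩
  have hk2 : C * (d:ℝ) ^ η / η ≤ ((2:ℝ) ^ k) ^ η := by
    have e : ((2:ℝ) ^ k) ^ η = ((2:ℝ) ^ η) ^ k := by
      rw [← Real.rpow_natCast, ← Real.rpow_natCast, ← Real.rpow_mul (by norm_num),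
        ← Real.rpow_mul (by norm_num), mul_comm]
    rw [e]
    exact hk₁.le.trans (pow_le_pow_right₀ h2.le hk)
  set x : ℝ := (2:ℝ) ^ k with hx
  have hx1 : 1 ≤ x := one_le_pow₀ (by norm_num)
  have hx0 : 0 < x := by linarith
  have h1 : Real.log (d * x) ≤ (d * x) ^ η / η := Real.log_le_rpow_div (by positivity) hη0
  rw [div_le_iff₀ hx0]
  have e2 : x ^ (-c) * x = x ^ η * x ^ η := by
    rw [← Real.rpow_add hx0]
    nth_rewrite 2 [← Real.rpow_one x]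
    rw [← Real.rpow_add hx0]
    congr 1
    rw [hη]; ring
  rw [e2]
  calc C * Real.log (d * x) ≤ C * ((d * x) ^ η / η) := by gcongr
    _ = (C * (d:ℝ) ^ η / η) * x ^ η := by
      rw [Real.mul_rpow (by positivity) hx0.le]; ring
    _ ≤ x ^ η * x ^ η := by gcongr

/-- **Exponential lower bound for monotone circuits under the promise that the basic semidefinite
relaxation accepts, with the optimal exponent.** -/
theorem sdp_only (hmain : MainBound) : ∀ d m : ℕ, 2 ≤ d → 2 ^ m ≤ d → ∃ k₁ : ℕ, ∀ k ≥ k₁,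
    ∃ N₁ : ℕ, ∀ N ≥ N₁, ∀ K : MonotoneCircuit (Var N d (2 ^ k)),
      SeparatesOn K (6 * ((2 : ℝ) ^ k) ^ (-sdpExp m)) SdpAccepts →
        Real.exp ((N : ℝ) ^ (1 / 5 : ℝ)) ≤ K.size := by
  obtain ⟨C, hC, h⟩ := promised hmain
  intro d m hd hm
  obtain ⟨k₁, hk₁⟩ := num_sdp C hC d hd (sdpExp m) (sdpExp_lt m)
  suffices hs : ∀ k ≥ k₁ + 1, ∃ N₁ : ℕ, ∀ N ≥ N₁, ∀ K : MonotoneCircuit (Var N d (2 ^ (k + 1))),
      SeparatesOn K (6 * ((2 : ℝ) ^ (k + 1)) ^ (-sdpExp m)) SdpAccepts →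
        Real.exp ((N : ℝ) ^ (1 / 5 : ℝ)) ≤ K.size by
    refine ⟨k₁ + 2, fun k hk => ?_⟩
    obtain ⟨k', rfl⟩ : ∃ k', k = k' + 1 := ⟨k - 1, by omega⟩
    exact hs k' (by omega)
  intro k hk
  have e : 2 ^ (k + 1) = 2 ^ k + 2 ^ k := by rw [pow_succ]; ring
  rw [e]
  obtain ⟨V, W, hV, hW, G, M, hG, -, ⟨S, z, hz, hx, hy⟩, hval⟩ := Pool.Agent.H90.DG.main m k d hm
  have hx0 : (0:ℝ) < (2:ℝ) ^ k := by positivity
  have hx1 : (1:ℝ) ≤ (2:ℝ) ^ k := one_le_pow₀ (by norm_num)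
  have hnum : C * Real.log (d * ((2 ^ k : ℕ) : ℝ)) / ((2 ^ k : ℕ) : ℝ) ≤
      ((2:ℝ) ^ k) ^ (-sdpExp m) := by
    push_cast
    exact hk₁ k (by omega)
  have hle1 : ((2:ℝ) ^ k) ^ (-sdpExp m) ≤ 1 :=
    Real.rpow_le_one_of_one_le_of_nonpos hx1 (by linarith [sdpExp_nonneg m])
  have hk2 : 2 ≤ 2 ^ k := by
    calc 2 = 2 ^ 1 := by norm_num
      _ ≤ 2 ^ k := Nat.pow_le_pow_right (by norm_num) (by omega)
  obtain ⟨N₁, hN₁⟩ := h d (2 ^ k) (2 ^ k) hd hk2 (by positivity) (((2:ℝ) ^ k) ^ (-sdpExp m))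
    hnum hle1 V W G hG (2 * ((2:ℝ) ^ k) ^ (-sdpExp m))
    (fun f g => (frac_le_value G f g).trans hval) (fun N => SdpAccepts) (by
      intro N₀ N ι ρ κ σ hρ hσ X
      exact ⟨M, ⟨pushSol ι ρ κ σ hρ hσ _ (prodSol X G S z hz hx hy)⟩⟩)
  refine ⟨N₁, fun N hN K hK => ?_⟩
  refine hN₁ N hN K _ ?_ hK
  have h3 : ((2:ℝ) ^ k) ^ (-sdpExp m) ≤ 2 * ((2:ℝ) ^ (k + 1)) ^ (-sdpExp m) := by
    have e3 : ((2:ℝ) ^ (k + 1)) ^ (-sdpExp m) =
        (2:ℝ) ^ (-sdpExp m) * ((2:ℝ) ^ k) ^ (-sdpExp m) := by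
      rw [pow_succ, mul_comm, Real.mul_rpow (by norm_num) hx0.le]
    rw [e3]
    have h4 : (1 / 2 : ℝ) ≤ (2:ℝ) ^ (-sdpExp m) := by
      have : (2:ℝ) ^ (-1 : ℝ) ≤ (2:ℝ) ^ (-sdpExp m) :=
        Real.rpow_le_rpow_of_exponent_le (by norm_num) (by linarith [sdpExp_lt m])
      rw [Real.rpow_neg_one] at this
      linarith
    have h5 : 0 ≤ ((2:ℝ) ^ k) ^ (-sdpExp m) := by positivity
    nlinarith
  linarith

end

end Pool.H87.PR
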