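import Pool.Agent.H66.RZ.Defs

/-!
Label Cover instances accepted by the basic semidefinite relaxation, and by its combination with
the affine integer relaxation; circuits for promised instances.
-/

namespace Pool.H87.PR

open Finset Pool.H66.RZ
open scoped Classical RealInnerProductSpace

noncomputable section

variable {V W : Type} {d R : ℕ}

/-- A perfect solution of the basic semidefinite relaxation: vectors for the labels of all
vertices, orthogonal at every vertex, with sum the same unit vector `z` at every vertex, and of
value one on every edge. -/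
structure SdpSolution (Φ : LabelCover V W d R) (N : ℕ) where
  x : V → Fin R → EuclideanSpace ℝ (Fin N)
  y : W → Fin (d * R) → EuclideanSpace ℝ (Fin N)
  z : EuclideanSpace ℝ (Fin N)
  norm_z : ‖z‖ = 1
  sum_x : ∀ v, ∑ a, x v a = z
  sum_y : ∀ w, ∑ b, y w b = z
  orth_x : ∀ v a a', a ≠ a' → ⟪x v a, x v a'⟫ = 0
  orth_y : ∀ w b b', b ≠ b' → ⟪y w b, y w b'⟫ = 0
  perfect : ∀ e ∈ Φ.E, ∑ b, ⟪x e.1 (Φ.π e b), y e.2 b⟫ = 1

/-- An integral solution of the affine relaxation: integers for the labels of every vertex with
sum `1`, such that on every edge the integer of a left label is the sum of the integers of the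
right labels mapped to it. -/
structure AipSolution (Φ : LabelCover V W d R) where
  s : V → Fin R → ℤ
  t : W → Fin (d * R) → ℤ
  sum_s : ∀ v, ∑ a, s v a = 1
  sum_t : ∀ w, ∑ b, t w b = 1
  edge : ∀ e ∈ Φ.E, ∀ a, s e.1 a = ∑ b ∈ Finset.univ.filter (fun b => Φ.π e b = a), t e.2 b

/-- The basic semidefinite relaxation accepts `Φ`. -/
def SdpAccepts (Φ : LabelCover V W d R) : Prop := ∃ N, Nonempty (SdpSolution Φ N)

/-- The combined semidefinite and affine relaxation accepts `Φ`: there are a perfect semidefinite
solution and an integral affine solution which is zero on all labels with the zero vector. -/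
def SdpAipAccepts (Φ : LabelCover V W d R) : Prop :=
  ∃ (N : ℕ) (S : SdpSolution Φ N) (T : AipSolution Φ),
    (∀ v a, T.s v a ≠ 0 → S.x v a ≠ 0) ∧ (∀ w b, T.t w b ≠ 0 → S.y w b ≠ 0)

/-- The circuit outputs `false` on all instances (with `N` left and `N` right vertices) of value
`1`, and `true` on all instances of value at most `ε` which have the property `P`. -/
def SeparatesOn {N d R : ℕ} (C : MonotoneCircuit (Var N d R)) (ε : ℝ)
    (P : LabelCover (Fin N) (Fin N) d R → Prop) : Prop :=
  (∀ Φ : LabelCover (Fin N) (Fin N) d R, Φ.E.Nonempty → Φ.value = 1 → C.eval Φ.enc = false) ∧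
  (∀ Φ : LabelCover (Fin N) (Fin N) d R, Φ.E.Nonempty → Φ.value ≤ ε → P Φ →
    C.eval Φ.enc = true)

end

end Pool.H87.PR
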