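import Pool.Agent.H87.PR.PromDefs
import Pool.Agent.H60.DTO.Union

/-!
Values of instances; instances pushed forward along injections of the vertex sets.
-/

namespace Pool.H87.PR

open Finset Pool.H66.RZ
open scoped Classical RealInnerProductSpace

noncomputable section

variable {V W V' W' : Type} {d R : ℕ}

/-- The fraction of satisfied edges. -/
def fr (Φ : LabelCover V W d R) (f : V → Fin R) (g : W → Fin (d * R)) : ℝ :=
  ((Φ.E.filter (fun e => Φ.π e (g e.2) = f e.1)).card : ℝ) / (Φ.E.card : ℝ)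

lemma fr_le_one (Φ : LabelCover V W d R) (f : V → Fin R) (g : W → Fin (d * R)) : fr Φ f g ≤ 1 := by
  unfold fr
  apply div_le_one_of_le₀ _ (Nat.cast_nonneg _)
  exact_mod_cast Finset.card_filter_le _ _

lemma fr_le_value (Φ : LabelCover V W d R) (f : V → Fin R) (g : W → Fin (d * R)) :
    fr Φ f g ≤ Φ.value := by
  unfold LabelCover.value
  have hb : BddAbove (Set.range (fun fg : (V → Fin R) × (W → Fin (d * R)) =>
      ((Φ.E.filter (fun e => Φ.π e (fg.2 e.2) = fg.1 e.1)).card : ℝ) / (Φ.E.card : ℝ))) := by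
    refine ⟨1, ?_⟩
    rintro _ ⟨fg, rfl⟩
    exact fr_le_one Φ fg.1 fg.2
  exact le_ciSup hb (f, g)

lemma value_le (Φ : LabelCover V W d R) (hR : 0 < R) (hd : 0 < d) (v : ℝ)
    (h : ∀ f g, fr Φ f g ≤ v) : Φ.value ≤ v := by
  have : Nonempty (Fin R) := ⟨⟨0, hR⟩⟩
  have : Nonempty (Fin (d * R)) := ⟨⟨0, Nat.mul_pos hd hR⟩⟩
  exact ciSup_le fun fg => h fg.1 fg.2

/-- All edges are satisfied. -/
def Sat (Φ : LabelCover V W d R) (f : V → Fin R) (g : W → Fin (d * R)) : Prop :=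
  ∀ e ∈ Φ.E, Φ.π e (g e.2) = f e.1

lemma value_of_sat (Φ : LabelCover V W d R) (hR : 0 < R) (hd : 0 < d) (hE : Φ.E.Nonempty)
    (f : V → Fin R) (g : W → Fin (d * R)) (h : Sat Φ f g) : Φ.value = 1 := by
  apply le_antisymm (value_le Φ hR hd 1 fun f g => fr_le_one Φ f g)
  have h1 : fr Φ f g = 1 := by
    unfold fr
    rw [Finset.filter_true_of_mem h, div_self]
    exact_mod_cast hE.card_pos.ne'
  rw [← h1]
  exact fr_le_value Φ f g

lemma sat_of_value [Finite V] [Finite W] (Φ : LabelCover V W d R) (hR : 0 < R) (hd : 0 < d)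
    (hE : Φ.E.Nonempty) (h : Φ.value = 1) : ∃ f g, Sat Φ f g := by
  have : Nonempty (Fin R) := ⟨⟨0, hR⟩⟩
  have : Nonempty (Fin (d * R)) := ⟨⟨0, Nat.mul_pos hd hR⟩⟩
  unfold LabelCover.value at h
  obtain ⟨fg, hfg⟩ := exists_eq_ciSup_of_finite
    (f := fun fg : (V → Fin R) × (W → Fin (d * R)) =>
      ((Φ.E.filter (fun e => Φ.π e (fg.2 e.2) = fg.1 e.1)).card : ℝ) / (Φ.E.card : ℝ))
  rw [← hfg] at h
  refine ⟨fg.1, fg.2, ?_⟩
  have hE' : (0:ℝ) < Φ.E.card := by exact_mod_cast hE.card_pos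
  rw [div_eq_one_iff_eq hE'.ne'] at h
  have h2 : (Φ.E.filter (fun e => Φ.π e (fg.2 e.2) = fg.1 e.1)).card = Φ.E.card := by
    exact_mod_cast h
  exact Finset.filter_card_eq h2

/-- Pushing an instance forward along injections of the vertex sets. -/
def push (ι : V → V') (ρ : V' → V) (κ : W → W') (σ : W' → W) (hρ : ∀ v, ρ (ι v) = v)
    (hσ : ∀ w, σ (κ w) = w) (Φ : LabelCover V W d R) : LabelCover V' W' d R where
  E := Φ.E.image (fun e => (ι e.1, κ e.2))
  π := fun e => Φ.π (ρ e.1, σ e.2)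
  dto1 := by
    intro e he a
    obtain ⟨e0, h0, rfl⟩ := Finset.mem_image.1 he
    have : (ρ (ι e0.1), σ (κ e0.2)) = e0 := by rw [hρ, hσ]
    simp only [this]
    exact Φ.dto1 e0 h0 a

variable (ι : V → V') (ρ : V' → V) (κ : W → W') (σ : W' → W) (hρ : ∀ v, ρ (ι v) = v)
  (hσ : ∀ w, σ (κ w) = w) (Φ : LabelCover V W d R)

lemma emb_inj (hρ : ∀ v, ρ (ι v) = v) (hσ : ∀ w, σ (κ w) = w) :
    Function.Injective (fun e : V × W => (ι e.1, κ e.2)) := by
  intro e e' h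
  have h1 : ι e.1 = ι e'.1 := congrArg Prod.fst h
  have h2 : κ e.2 = κ e'.2 := congrArg Prod.snd h
  refine Prod.ext ?_ ?_
  · rw [← hρ e.1, h1, hρ]
  · rw [← hσ e.2, h2, hσ]

lemma push_fr (f : V' → Fin R) (g : W' → Fin (d * R)) :
    fr (push ι ρ κ σ hρ hσ Φ) f g = fr Φ (fun v => f (ι v)) (fun w => g (κ w)) := by
  have hinj := emb_inj ι ρ κ σ hρ hσ
  have h1 : (push ι ρ κ σ hρ hσ Φ).E.card = Φ.E.card :=
    Finset.card_image_of_injective _ hinj
  have h2 : ((push ι ρ κ σ hρ hσ Φ).E.filter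
      (fun e => (push ι ρ κ σ hρ hσ Φ).π e (g e.2) = f e.1)).card =
      (Φ.E.filter (fun e => Φ.π e (g (κ e.2)) = f (ι e.1))).card := by
    show ((Φ.E.image (fun e => (ι e.1, κ e.2))).filter
      (fun e => Φ.π (ρ e.1, σ e.2) (g e.2) = f e.1)).card = _
    rw [Finset.filter_image, Finset.card_image_of_injective _ hinj]
    congr 1
    ext e
    simp only [Finset.mem_filter, hρ, hσ]
  unfold fr
  rw [h1, h2]

lemma push_nonempty (h : Φ.E.Nonempty) : (push ι ρ κ σ hρ hσ Φ).E.Nonempty :=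
  h.image _

lemma mem_push (e : V' × W') : e ∈ (push ι ρ κ σ hρ hσ Φ).E ↔
    ι (ρ e.1) = e.1 ∧ κ (σ e.2) = e.2 ∧ (ρ e.1, σ e.2) ∈ Φ.E := by
  show e ∈ Φ.E.image (fun e => (ι e.1, κ e.2)) ↔ _
  rw [Finset.mem_image]
  constructor
  · rintro ⟨e0, h0, rfl⟩
    refine ⟨by simp only [hρ], by simp only [hσ], ?_⟩
    simpa only [hρ, hσ] using h0
  · rintro ⟨h1, h2, h3⟩
    exact ⟨_, h3, Prod.ext h1 h2⟩

/-- Solutions of the semidefinite relaxation are pulled back. -/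
def pushSol {N : ℕ} (S : SdpSolution Φ N) : SdpSolution (push ι ρ κ σ hρ hσ Φ) N where
  x v := S.x (ρ v)
  y w := S.y (σ w)
  z := S.z
  norm_z := S.norm_z
  sum_x v := S.sum_x _
  sum_y w := S.sum_y _
  orth_x v := S.orth_x _
  orth_y w := S.orth_y _
  perfect := by
    intro e he
    exact S.perfect _ ((mem_push ι ρ κ σ hρ hσ Φ e).1 he).2.2

/-- Solutions of the affine relaxation are pulled back. -/
def pushAff (T : AipSolution Φ) : AipSolution (push ι ρ κ σ hρ hσ Φ) where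
  s v := T.s (ρ v)
  t w := T.t (σ w)
  sum_s v := T.sum_s _
  sum_t w := T.sum_t _
  edge := by
    intro e he
    exact T.edge _ ((mem_push ι ρ κ σ hρ hσ Φ e).1 he).2.2

end

end Pool.H87.PR
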