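import Pool.Agent.H90.RC.Defs

/-!
Substituting constants and input variables for the input variables of a monotone real circuit.
-/

namespace Pool.H87.PR

open Pool.H66.RZ Pool.H90.RC

noncomputable section

variable {ι κ : Type}

/-- Substitution in a wire. -/
def rsubstWire (θ : ι → Bool ⊕ κ) : RWire ι → RWire κ
  | .const c => .const c
  | .input i => Sum.elim (fun b => RWire.const (if b = true then 1 else 0)) RWire.input (θ i)
  | .gate j => .gate j

/-- Substitution in a gate. -/
def rsubstGate (θ : ι → Bool ⊕ κ) (g : RGate ι) : RGate κ :=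
  ⟨g.fn, g.mono, rsubstWire θ g.left, rsubstWire θ g.right⟩

/-- Substitution in a circuit. -/
def rsubst (θ : ι → Bool ⊕ κ) (C : RCircuit ι) : RCircuit κ :=
  ⟨C.gates.map (rsubstGate θ), rsubstWire θ C.out⟩

/-- The input of the original circuit. -/
def rpull (θ : ι → Bool ⊕ κ) (x : κ → Bool) : ι → Bool := fun i => Sum.elim id x (θ i)

lemma rsubstWire_val (θ : ι → Bool ⊕ κ) (x : κ → Bool) (vals : List ℝ) (w : RWire ι) :
    (rsubstWire θ w).val x vals = w.val (rpull θ x) vals := by
  cases w with
  | const b => rfl
  | input i =>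
    show (Sum.elim (fun b => RWire.const (if b = true then 1 else 0)) RWire.input (θ i)).val x vals
      = if Sum.elim id x (θ i) = true then 1 else 0
    rcases θ i with b | k <;> rfl
  | gate j => rfl

lemma rsubstGate_val (θ : ι → Bool ⊕ κ) (x : κ → Bool) (vals : List ℝ) (g : RGate ι) :
    (rsubstGate θ g).val x vals = g.val (rpull θ x) vals := by
  unfold RGate.val rsubstGate
  simp only [rsubstWire_val]

lemma rrun_subst (θ : ι → Bool ⊕ κ) (x : κ → Bool) (gs : List (RGate ι)) :
    ∀ vals, rrun x (gs.map (rsubstGate θ)) vals = rrun (rpull θ x) gs vals := by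
  induction gs with
  | nil => intro vals; rfl
  | cons g gs ih =>
    intro vals
    show rrun x (gs.map (rsubstGate θ)) (vals ++ [(rsubstGate θ g).val x vals]) =
      rrun (rpull θ x) gs (vals ++ [g.val (rpull θ x) vals])
    rw [ih, rsubstGate_val]

/-- Evaluating the circuit after substitution. -/
theorem reval_subst (θ : ι → Bool ⊕ κ) (C : RCircuit ι) (x : κ → Bool) :
    (rsubst θ C).eval x = C.eval (rpull θ x) := by
  unfold RCircuit.eval rsubst
  rw [rrun_subst, rsubstWire_val]

theorem rsize_subst (θ : ι → Bool ⊕ κ) (C : RCircuit ι) :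
    (rsubst θ C).size = C.size := by
  unfold RCircuit.size rsubst
  rw [List.length_map]

/-- The output of the monotone real circuit is larger on every instance of value at most `ε` with
the property `P` than on every instance of value `1`. -/
def RSeparatesOn {N d R : ℕ} (C : RCircuit (Var N d R)) (ε : ℝ)
    (P : LabelCover (Fin N) (Fin N) d R → Prop) : Prop :=
  ∀ Φ Ψ : LabelCover (Fin N) (Fin N) d R, Φ.E.Nonempty → Φ.value = 1 → Ψ.E.Nonempty →
    Ψ.value ≤ ε → P Ψ → C.eval Φ.enc < C.eval Ψ.enc

end

end Pool.H87.PR
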