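import Pool.Agent.H87.PR.Transfer
import Pool.Agent.H87.PR.RSubst

/-!
Monotone real circuits for promised instances give such circuits for arbitrary instances with fewer
labels.
-/

namespace Pool.H87.PR

open Finset Pool.H66.RZ Pool.H90.RC Pool.Agent.H60.DTO
open scoped Classical

noncomputable section

variable {V₂ W₂ : Type} {d R₁ R₂ N₀ N : ℕ}

theorem rtransfer (hd : 0 < d) (hR1 : 0 < R₁) (hR2 : 0 < R₂)
    (G : Pool.Agent.H76.DTO.LabelCover V₂ W₂ d R₂) (hG : G.E.Nonempty)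
    (v₂ : ℝ) (hv : ∀ f g, G.frac f g ≤ v₂) (ι : Fin N₀ × V₂ → Fin N)
    (ρ : Fin N → Fin N₀ × V₂) (κ : Fin N₀ × W₂ → Fin N) (σ : Fin N → Fin N₀ × W₂)
    (hρ : ∀ v, ρ (ι v) = v) (hσ : ∀ w, σ (κ w) = w)
    (P : LabelCover (Fin N) (Fin N) d (R₁ + R₂) → Prop)
    (hP : ∀ X : LabelCover (Fin N₀) (Fin N₀) d R₁, P (push ι ρ κ σ hρ hσ (prod X G)))
    (ε δ : ℝ) (hεδ : ε + v₂ ≤ δ) (K : RCircuit (Var N d (R₁ + R₂)))
    (hK : RSeparatesOn K δ P) :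
    ∃ K' : RCircuit (Var N₀ d R₁), K'.size = K.size ∧ RSeparates K' ε := by
  refine ⟨rsubst (theta G ι ρ κ σ) K, rsize_subst _ _, ?_⟩
  intro X Y hE hX hE' hY
  have hpull : ∀ x : Var N₀ d R₁ → Bool, rpull (theta G ι ρ κ σ) x = pull (theta G ι ρ κ σ) x :=
    fun _ => rfl
  rw [reval_subst, reval_subst, hpull, hpull, ← enc_big G ι ρ κ σ hρ hσ X,
    ← enc_big G ι ρ κ σ hρ hσ Y]
  obtain ⟨f, g, hs⟩ := sat_of_value X hR1 hd hE hX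
  have hE2 := prod_nonempty X G hE hG
  have hE3 := prod_nonempty Y G hE' hG
  refine hK _ _ (push_nonempty ι ρ κ σ hρ hσ _ hE2) ?_ (push_nonempty ι ρ κ σ hρ hσ _ hE3) ?_
    (hP Y)
  · have h1 := prod_sat X G f g hs
    refine value_of_sat _ (by omega) hd (push_nonempty ι ρ κ σ hρ hσ _ hE2)
      (fun v => lE R₁ R₂ (Sum.inl (f (ρ v).1))) (fun w => rE d R₁ R₂ (Sum.inl (g (σ w).1))) ?_
    intro e he
    exact h1 _ ((mem_push ι ρ κ σ hρ hσ _ e).1 he).2.2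
  · refine value_le _ (by omega) hd δ fun f g => ?_
    rw [push_fr]
    refine (prod_fr Y G hR1 hR2 hd Y.value v₂ (fr_le_value Y) hv hE' hG _ _).trans ?_
    linarith

/-- Growth of `exp (N ^ δ)` against `exp ((N / s) ^ δ')`. -/
theorem rexp_aux (s : ℕ) (hs : 0 < s) (δ δ' : ℝ) (h0 : 0 < δ') (h : δ < δ') (N : ℕ)
    (hN : ((2 * s : ℕ) : ℝ) ^ (δ' / (δ' - δ)) ≤ N) (hN2 : 2 * s ≤ N) :
    Real.exp ((N : ℝ) ^ δ) ≤ Real.exp (((N / s : ℕ) : ℝ) ^ δ') := by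
  apply Real.exp_le_exp.2
  have hs' : (0:ℝ) < s := by exact_mod_cast hs
  have hNpos : (0:ℝ) < N := by
    have : 0 < N := by omega
    exact_mod_cast this
  have h1 : (N:ℝ) / (2 * s) ≤ ((N / s : ℕ) : ℝ) := by
    have e1 : N < N / s * s + s := by
      have := Nat.div_add_mod N s
      have := Nat.mod_lt N hs
      nlinarith
    have e2 : 1 ≤ N / s := (Nat.le_div_iff_mul_le hs).2 (by omega)
    have e3 : N ≤ N / s * (2 * s) := by nlinarith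
    rw [div_le_iff₀ (by positivity)]
    exact_mod_cast e3
  have hd : 0 < δ' - δ := by linarith
  have h2 : (2 * s : ℝ) ^ δ' ≤ (N:ℝ) ^ (δ' - δ) := by
    have e : ((2 * s : ℕ) : ℝ) = 2 * s := by push_cast; ring
    rw [e] at hN
    have := Real.rpow_le_rpow (by positivity) hN hd.le
    rw [← Real.rpow_mul (by positivity)] at this
    have e4 : δ' / (δ' - δ) * (δ' - δ) = δ' := by field_simp
    rwa [e4] at this
  calc (N:ℝ) ^ δ ≤ ((N:ℝ) / (2 * s)) ^ δ' := by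
        rw [Real.div_rpow hNpos.le (by positivity), le_div_iff₀ (by positivity)]
        calc (N:ℝ) ^ δ * (2 * s : ℝ) ^ δ' ≤ (N:ℝ) ^ δ * (N:ℝ) ^ (δ' - δ) := by gcongr
          _ = (N:ℝ) ^ δ' := by
            rw [← Real.rpow_add hNpos]
            congr 1
            ring
    _ ≤ _ := Real.rpow_le_rpow (by positivity) h1 h0.le

/-- The lower bound for promised instances from the lower bound for all instances. -/
theorem rpromised (hmain : ∃ C : ℝ, 0 < C ∧ ∀ d R : ℕ, 2 ≤ d → 2 ≤ R → ∀ ε : ℝ,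
      C * Real.log (d * R) / R ≤ ε → ε ≤ 1 → ∀ δ : ℝ, δ < 1 / 3 → ∃ N₀ : ℕ, ∀ N ≥ N₀,
        ∀ K : RCircuit (Var N d R), RSeparates K ε →
          Real.exp ((N : ℝ) ^ δ) ≤ K.size) :
    ∃ C : ℝ, 0 < C ∧ ∀ d R₁ R₂ : ℕ, 2 ≤ d → 2 ≤ R₁ → 0 < R₂ → ∀ ε : ℝ,
      C * Real.log (d * R₁) / R₁ ≤ ε → ε ≤ 1 → ∀ (V₂ W₂ : Type) [Fintype V₂] [Fintype W₂]
        (G : Pool.Agent.H76.DTO.LabelCover V₂ W₂ d R₂), G.E.Nonempty →
        ∀ v₂ : ℝ, (∀ f g, G.frac f g ≤ v₂) →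
        ∀ P : ∀ N : ℕ, LabelCover (Fin N) (Fin N) d (R₁ + R₂) → Prop,
        (∀ (N₀ N : ℕ) (ι : Fin N₀ × V₂ → Fin N)
          (ρ : Fin N → Fin N₀ × V₂) (κ : Fin N₀ × W₂ → Fin N) (σ : Fin N → Fin N₀ × W₂)
          (hρ : ∀ v, ρ (ι v) = v) (hσ : ∀ w, σ (κ w) = w)
          (X : LabelCover (Fin N₀) (Fin N₀) d R₁), P N (push ι ρ κ σ hρ hσ (prod X G))) →
        ∀ δ : ℝ, δ < 1 / 3 → ∃ N₁ : ℕ, ∀ N ≥ N₁, ∀ K : RCircuit (Var N d (R₁ + R₂)),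
          ∀ η : ℝ, ε + v₂ ≤ η → RSeparatesOn K η (P N) →
            Real.exp ((N : ℝ) ^ δ) ≤ K.size := by
  obtain ⟨C, hC, hmain⟩ := hmain
  refine ⟨C, hC, ?_⟩
  intro d R₁ R₂ hd hR1 hR2 ε hε hε1 V₂ W₂ _ _ G hG v₂ hv P hP δ hδ
  have hδ'0 : 0 < (max δ 0 + 1 / 3) / 2 := by
    have := le_max_right δ 0
    linarith
  have hδ'1 : δ < (max δ 0 + 1 / 3) / 2 := by
    have := le_max_left δ 0
    linarith
  have hδ'2 : (max δ 0 + 1 / 3) / 2 < 1 / 3 := by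
    have : max δ 0 < 1 / 3 := max_lt hδ (by norm_num)
    linarith
  obtain ⟨N₀, hN₀⟩ := hmain d R₁ hd hR1 ε hε hε1 _ hδ'2
  obtain ⟨e, he⟩ := hG
  have : Nonempty V₂ := ⟨e.1⟩
  have : Nonempty W₂ := ⟨e.2⟩
  set s := max (Fintype.card V₂) (Fintype.card W₂) with hs
  have hs0 : 0 < s := lt_of_lt_of_le Fintype.card_pos (le_max_left _ _)
  set δ' := (max δ 0 + 1 / 3) / 2 with hδ'
  refine ⟨⌈((2 * s : ℕ) : ℝ) ^ (δ' / (δ' - δ))⌉₊ + 2 * s + s * (N₀ + 1), fun N hN K η hη hK => ?_⟩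
  have hN1 : ((2 * s : ℕ) : ℝ) ^ (δ' / (δ' - δ)) ≤ N := by
    refine (Nat.le_ceil _).trans ?_
    have : ⌈((2 * s : ℕ) : ℝ) ^ (δ' / (δ' - δ))⌉₊ ≤ N := by omega
    exact_mod_cast this
  have hN2 : s * (N₀ + 1) ≤ N := by omega
  have hN3 : N₀ + 1 ≤ N / s := (Nat.le_div_iff_mul_le hs0).2 (by rw [mul_comm]; exact hN2)
  have hN4 : N / s * s ≤ N := Nat.div_mul_le_self N s
  obtain ⟨ι, ρ, hρ⟩ := exists_emb V₂ (N₀ := N / s) (N := N) (by omega)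
    ((Nat.mul_le_mul_left _ (le_max_left _ _)).trans hN4)
  obtain ⟨κ, σ, hσ⟩ := exists_emb W₂ (N₀ := N / s) (N := N) (by omega)
    ((Nat.mul_le_mul_left _ (le_max_right _ _)).trans hN4)
  obtain ⟨K', hK1, hK2⟩ := rtransfer (by omega) (by omega) hR2 G ⟨e, he⟩ v₂ hv ι ρ κ σ hρ hσ (P N)
    (hP _ _ ι ρ κ σ hρ hσ) ε η hη K hK
  have h1 := hN₀ (N / s) (by omega) K' hK2
  rw [hK1] at h1
  exact (rexp_aux s hs0 δ δ' hδ'0 hδ'1 N hN1 (by omega)).trans h1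

end

end Pool.H87.PR
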