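import Pool.Agent.H87.PR.Prom
import Pool.Agent.H87.PR.RTransfer

/-!
Monotone real circuits for instances promised to be accepted by the relaxations.
-/

namespace Pool.H87.PR

open Finset Pool.H66.RZ Pool.H90.RC Pool.Agent.H60.DTO
open scoped Classical

noncomputable section

/-- The lower bound for all instances. -/
def RMainBound : Prop := ∃ C : ℝ, 0 < C ∧ ∀ d R : ℕ, 2 ≤ d → 2 ≤ R → ∀ ε : ℝ,
  C * Real.log (d * R) / R ≤ ε → ε ≤ 1 → ∀ δ : ℝ, δ < 1 / 3 → ∃ N₀ : ℕ, ∀ N ≥ N₀,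
    ∀ K : RCircuit (Var N d R), RSeparates K ε →
      Real.exp ((N : ℝ) ^ δ) ≤ K.size

/-- **Exponential lower bound for monotone real circuits under the promise that the combined
semidefinite and affine relaxation accepts.** -/
theorem rsdp_aip (hmain : RMainBound) : ∀ d : ℕ, 2 ≤ d → ∃ n₁ : ℕ, ∀ n ≥ n₁, ∃ R : ℕ,
    n ≤ R ∧ R ≤ 9 * n ∧ ∀ δ : ℝ, δ < 1 / 3 → ∃ N₁ : ℕ, ∀ N ≥ N₁,
      ∀ K : RCircuit (Var N d R), RSeparatesOn K (12 * (R : ℝ) ^ (-(1 / 15) : ℝ)) SdpAipAccepts →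
        Real.exp ((N : ℝ) ^ δ) ≤ K.size := by
  obtain ⟨C, hC, h⟩ := rpromised hmain
  intro d hd
  refine ⟨⌈(36 * C * d) ^ 2⌉₊ + 2, fun n hn => ?_⟩
  have hn1 : (36 * C * d) ^ 2 ≤ n := by
    refine (Nat.le_ceil _).trans ?_
    have : ⌈(36 * C * d) ^ 2⌉₊ ≤ n := by omega
    exact_mod_cast this
  obtain ⟨R₂, hn2, hn3, V, W, hV, hW, G, M, S, T, hG, ⟨z, hz, hx, hy⟩, ⟨c1, c2⟩, hval⟩ :=
    gap d n hd (by omega)
  have hnum := num_aip C hC d n (n + R₂) hd hn1 (by omega) (by omega) (by omega)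
  have hle1 : ((n + R₂ : ℕ) : ℝ) ^ (-(1 / 15) : ℝ) ≤ 1 := by
    apply Real.rpow_le_one_of_one_le_of_nonpos
    · have : 1 ≤ n + R₂ := by omega
      exact_mod_cast this
    · norm_num
  have hN₁ := h d n R₂ hd (by omega) (by omega) (((n + R₂ : ℕ) : ℝ) ^ (-(1 / 15) : ℝ))
    hnum hle1 V W G hG (10 * (R₂ : ℝ) ^ (-(1 / 15) : ℝ)) hval (fun N => SdpAipAccepts) (by
      intro N₀ N ι ρ κ σ hρ hσ X
      refine ⟨M, pushSol ι ρ κ σ hρ hσ _ (prodSol X G S z hz hx hy),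
        pushAff ι ρ κ σ hρ hσ _ (prodAff X G T), ?_, ?_⟩
      · intro v a h
        obtain ⟨c, rfl⟩ := (lE n R₂).surjective a
        rcases c with a | a
        · exfalso
          apply h
          show Sum.elim (fun _ => (0:ℤ)) (T.x (ρ v).2) ((lE n R₂).symm (lE n R₂ (Sum.inl a))) = 0
          rw [Equiv.symm_apply_apply]
          rfl
        · have h' : T.x (ρ v).2 a ≠ 0 := by
            intro h0
            apply h
            show Sum.elim (fun _ => (0:ℤ)) (T.x (ρ v).2) ((lE n R₂).symm (lE n R₂ (Sum.inr a))) = 0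
            rw [Equiv.symm_apply_apply]
            exact h0
          show Sum.elim (fun _ => 0) (S.x (ρ v).2) ((lE n R₂).symm (lE n R₂ (Sum.inr a))) ≠ 0
          rw [Equiv.symm_apply_apply]
          exact c1 _ _ h'
      · intro v a h
        obtain ⟨c, rfl⟩ := (rE d n R₂).surjective a
        rcases c with a | a
        · exfalso
          apply h
          show Sum.elim (fun _ => (0:ℤ)) (T.y (σ v).2)
            ((rE d n R₂).symm (rE d n R₂ (Sum.inl a))) = 0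
          rw [Equiv.symm_apply_apply]
          rfl
        · have h' : T.y (σ v).2 a ≠ 0 := by
            intro h0
            apply h
            show Sum.elim (fun _ => (0:ℤ)) (T.y (σ v).2)
              ((rE d n R₂).symm (rE d n R₂ (Sum.inr a))) = 0
            rw [Equiv.symm_apply_apply]
            exact h0
          show Sum.elim (fun _ => 0) (S.y (σ v).2) ((rE d n R₂).symm (rE d n R₂ (Sum.inr a))) ≠ 0
          rw [Equiv.symm_apply_apply]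
          exact c2 _ _ h')
  refine ⟨n + R₂, by omega, by omega, fun δ hδ => ?_⟩
  obtain ⟨N₁, hN₁⟩ := hN₁ δ hδ
  refine ⟨N₁, fun N hN K hK => ?_⟩
  refine hN₁ N hN K _ ?_ hK
  have hR0 : (0:ℝ) < R₂ := by
    have : 0 < R₂ := by omega
    exact_mod_cast this
  have h1 : (R₂ : ℝ) ^ (-(1 / 15) : ℝ) ≤ 11 / 10 * ((n + R₂ : ℕ) : ℝ) ^ (-(1 / 15) : ℝ) := by
    have h2 : (((2:ℝ) * R₂)) ^ (-(1 / 15) : ℝ) ≤ ((n + R₂ : ℕ) : ℝ) ^ (-(1 / 15) : ℝ) := by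
      apply Real.rpow_le_rpow_of_nonpos
      · have : 0 < n + R₂ := by omega
        exact_mod_cast this
      · have : n + R₂ ≤ 2 * R₂ := by omega
        exact_mod_cast this
      · norm_num
    rw [Real.mul_rpow (by norm_num) hR0.le] at h2
    have h3 : (2:ℝ) ^ (1 / 15 : ℝ) ≤ 11 / 10 := by
      have e : (11 / 10 : ℝ) = ((11 / 10 : ℝ) ^ (15:ℕ)) ^ (1 / 15 : ℝ) := by
        rw [← Real.rpow_natCast, ← Real.rpow_mul (by norm_num)]
        norm_num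
      rw [e]
      exact Real.rpow_le_rpow (by norm_num) (by norm_num) (by norm_num)
    have h4 : (2:ℝ) ^ (1 / 15 : ℝ) * (2:ℝ) ^ (-(1 / 15) : ℝ) = 1 := by
      rw [← Real.rpow_add (by norm_num)]
      norm_num
    have h5 : 0 < (2:ℝ) ^ (-(1 / 15) : ℝ) := by positivity
    calc (R₂ : ℝ) ^ (-(1 / 15) : ℝ) =
          (2:ℝ) ^ (1 / 15 : ℝ) * ((2:ℝ) ^ (-(1 / 15) : ℝ) * (R₂ : ℝ) ^ (-(1 / 15) : ℝ)) := by
          rw [← mul_assoc, h4, one_mul]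
      _ ≤ 11 / 10 * ((n + R₂ : ℕ) : ℝ) ^ (-(1 / 15) : ℝ) := by gcongr
  linarith

/-- **Exponential lower bound for monotone real circuits under the promise that the basic semidefinite
relaxation accepts, with the optimal exponent.** -/
theorem rsdp_only (hmain : RMainBound) : ∀ d m : ℕ, 2 ≤ d → 2 ^ m ≤ d → ∃ k₁ : ℕ, ∀ k ≥ k₁,
    ∀ δ : ℝ, δ < 1 / 3 → ∃ N₁ : ℕ, ∀ N ≥ N₁, ∀ K : RCircuit (Var N d (2 ^ k)),
      RSeparatesOn K (6 * ((2 : ℝ) ^ k) ^ (-sdpExp m)) SdpAccepts →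
        Real.exp ((N : ℝ) ^ δ) ≤ K.size := by
  obtain ⟨C, hC, h⟩ := rpromised hmain
  intro d m hd hm
  obtain ⟨k₁, hk₁⟩ := num_sdp C hC d hd (sdpExp m) (sdpExp_lt m)
  suffices hs : ∀ k ≥ k₁ + 1, ∀ δ : ℝ, δ < 1 / 3 → ∃ N₁ : ℕ, ∀ N ≥ N₁,
      ∀ K : RCircuit (Var N d (2 ^ (k + 1))),
      RSeparatesOn K (6 * ((2 : ℝ) ^ (k + 1)) ^ (-sdpExp m)) SdpAccepts →
        Real.exp ((N : ℝ) ^ δ) ≤ K.size by
    refine ⟨k₁ + 2, fun k hk => ?_⟩
    obtain ⟨k', rfl⟩ : ∃ k', k = k' + 1 := ⟨k - 1, by omega⟩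
    exact hs k' (by omega)
  intro k hk δ hδ
  have e : 2 ^ (k + 1) = 2 ^ k + 2 ^ k := by rw [pow_succ]; ring
  rw [e]
  obtain ⟨V, W, hV, hW, G, M, hG, -, ⟨S, z, hz, hx, hy⟩, hval⟩ := Pool.Agent.H90.DG.main m k d hm
  have hx0 : (0:ℝ) < (2:ℝ) ^ k := by positivity
  have hx1 : (1:ℝ) ≤ (2:ℝ) ^ k := one_le_pow₀ (by norm_num)
  have hnum : C * Real.log (d * ((2 ^ k : ℕ) : ℝ)) / ((2 ^ k : ℕ) : ℝ) ≤
      ((2:ℝ) ^ k) ^ (-sdpExp m) := by
    push_cast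
    exact hk₁ k (by omega)
  have hle1 : ((2:ℝ) ^ k) ^ (-sdpExp m) ≤ 1 :=
    Real.rpow_le_one_of_one_le_of_nonpos hx1 (by linarith [sdpExp_nonneg m])
  have hk2 : 2 ≤ 2 ^ k := by
    calc 2 = 2 ^ 1 := by norm_num
      _ ≤ 2 ^ k := Nat.pow_le_pow_right (by norm_num) (by omega)
  obtain ⟨N₁, hN₁⟩ := h d (2 ^ k) (2 ^ k) hd hk2 (by positivity) (((2:ℝ) ^ k) ^ (-sdpExp m))
    hnum hle1 V W G hG (2 * ((2:ℝ) ^ k) ^ (-sdpExp m))
    (fun f g => (frac_le_value G f g).trans hval) (fun N => SdpAccepts) (by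
      intro N₀ N ι ρ κ σ hρ hσ X
      exact ⟨M, ⟨pushSol ι ρ κ σ hρ hσ _ (prodSol X G S z hz hx hy)⟩⟩) δ hδ
  refine ⟨N₁, fun N hN K hK => ?_⟩
  refine hN₁ N hN K _ ?_ hK
  have h3 : ((2:ℝ) ^ k) ^ (-sdpExp m) ≤ 2 * ((2:ℝ) ^ (k + 1)) ^ (-sdpExp m) := by
    have e3 : ((2:ℝ) ^ (k + 1)) ^ (-sdpExp m) =
        (2:ℝ) ^ (-sdpExp m) * ((2:ℝ) ^ k) ^ (-sdpExp m) := by
      rw [pow_succ, mul_comm, Real.mul_rpow (by norm_num) hx0.le]
    rw [e3]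
    have h4 : (1 / 2 : ℝ) ≤ (2:ℝ) ^ (-sdpExp m) := by
      have : (2:ℝ) ^ (-1 : ℝ) ≤ (2:ℝ) ^ (-sdpExp m) :=
        Real.rpow_le_rpow_of_exponent_le (by norm_num) (by linarith [sdpExp_lt m])
      rw [Real.rpow_neg_one] at this
      linarith
    have h5 : 0 ≤ ((2:ℝ) ^ k) ^ (-sdpExp m) := by positivity
    nlinarith
  linarith

end

end Pool.H87.PR
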