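import Pool.Agent.H66.RZ.Defs

/-!
Substituting constants and input variables for the input variables of a monotone circuit.
-/

namespace Pool.H87.PR

open Pool.H66.RZ

variable {ι κ : Type}

/-- Substitution in a wire. -/
def substWire (θ : ι → Bool ⊕ κ) : Wire ι → Wire κ
  | .const b => .const b
  | .input i => Sum.elim Wire.const Wire.input (θ i)
  | .gate j => .gate j

/-- Substitution in a gate. -/
def substGate (θ : ι → Bool ⊕ κ) (g : Gate ι) : Gate κ :=
  ⟨g.conj, substWire θ g.left, substWire θ g.right⟩

/-- Substitution in a circuit. -/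
def subst (θ : ι → Bool ⊕ κ) (C : MonotoneCircuit ι) : MonotoneCircuit κ :=
  ⟨C.gates.map (substGate θ), substWire θ C.out⟩

/-- The input of the original circuit. -/
def pull (θ : ι → Bool ⊕ κ) (x : κ → Bool) : ι → Bool := fun i => Sum.elim id x (θ i)

lemma substWire_val (θ : ι → Bool ⊕ κ) (x : κ → Bool) (vals : List Bool) (w : Wire ι) :
    (substWire θ w).val x vals = w.val (pull θ x) vals := by
  cases w with
  | const b => rfl
  | input i =>
    show (Sum.elim Wire.const Wire.input (θ i)).val x vals = Sum.elim id x (θ i)
    rcases θ i with b | k <;> rfl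
  | gate j => rfl

lemma substGate_val (θ : ι → Bool ⊕ κ) (x : κ → Bool) (vals : List Bool) (g : Gate ι) :
    (substGate θ g).val x vals = g.val (pull θ x) vals := by
  unfold Gate.val substGate
  simp only [substWire_val]

lemma run_subst (θ : ι → Bool ⊕ κ) (x : κ → Bool) (gs : List (Gate ι)) :
    ∀ vals, run x (gs.map (substGate θ)) vals = run (pull θ x) gs vals := by
  induction gs with
  | nil => intro vals; rfl
  | cons g gs ih =>
    intro vals
    show run x (gs.map (substGate θ)) (vals ++ [(substGate θ g).val x vals]) =
      run (pull θ x) gs (vals ++ [g.val (pull θ x) vals])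
    rw [ih, substGate_val]

/-- Evaluating the circuit after substitution. -/
theorem eval_subst (θ : ι → Bool ⊕ κ) (C : MonotoneCircuit ι) (x : κ → Bool) :
    (subst θ C).eval x = C.eval (pull θ x) := by
  unfold MonotoneCircuit.eval subst
  rw [run_subst, substWire_val]

theorem size_subst (θ : ι → Bool ⊕ κ) (C : MonotoneCircuit ι) :
    (subst θ C).size = C.size := by
  unfold MonotoneCircuit.size subst
  rw [List.length_map]

end Pool.H87.PR
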