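import Pool.Agent.H87.PR.Prod
import Pool.Agent.H87.PR.Subst

/-!
Circuits for promised instances give circuits for arbitrary instances with fewer labels.
-/

namespace Pool.H87.PR

open Finset Pool.H66.RZ Pool.Agent.H60.DTO
open scoped Classical

noncomputable section

variable {V₂ W₂ : Type} {d R₁ R₂ N₀ N : ℕ}

/-- The substitution. -/
def theta (G : Pool.Agent.H76.DTO.LabelCover V₂ W₂ d R₂) (ι : Fin N₀ × V₂ → Fin N)
    (ρ : Fin N → Fin N₀ × V₂) (κ : Fin N₀ × W₂ → Fin N) (σ : Fin N → Fin N₀ × W₂) :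
    Var N d (R₁ + R₂) → Bool ⊕ Var N₀ d R₁ := fun t =>
  if h : ι (ρ t.1) = t.1 ∧ κ (σ t.2.1) = t.2.1 ∧ ((ρ t.1).2, (σ t.2.1).2) ∈ G.E ∧
      ∃ τ₀ : Fin (d * R₁) → Fin R₁, ∀ b, lE R₁ R₂ (Sum.map τ₀
        (G.π ((ρ t.1).2, (σ t.2.1).2)) ((rE d R₁ R₂).symm b)) = t.2.2 b
  then Sum.inr ((ρ t.1).1, (σ t.2.1).1, h.2.2.2.choose) else Sum.inl false

lemma enc_big (G : Pool.Agent.H76.DTO.LabelCover V₂ W₂ d R₂) (ι : Fin N₀ × V₂ → Fin N)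
    (ρ : Fin N → Fin N₀ × V₂) (κ : Fin N₀ × W₂ → Fin N) (σ : Fin N → Fin N₀ × W₂)
    (hρ : ∀ v, ρ (ι v) = v) (hσ : ∀ w, σ (κ w) = w) (X : LabelCover (Fin N₀) (Fin N₀) d R₁) :
    (push ι ρ κ σ hρ hσ (prod X G)).enc = pull (theta G ι ρ κ σ) X.enc := by
  funext t
  obtain ⟨v, w, τ⟩ := t
  have hmem := mem_push ι ρ κ σ hρ hσ (prod X G) (v, w)
  have hmem2 := mem_prod X G (ρ v, σ w)
  simp only at hmem hmem2
  unfold pull theta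
  by_cases h : ι (ρ v) = v ∧ κ (σ w) = w ∧ ((ρ v).2, (σ w).2) ∈ G.E ∧
      ∃ τ₀ : Fin (d * R₁) → Fin R₁, ∀ b, lE R₁ R₂ (Sum.map τ₀
        (G.π ((ρ v).2, (σ w).2)) ((rE d R₁ R₂).symm b)) = τ b
  · rw [dif_pos h]
    have hspec := h.2.2.2.choose_spec
    set τ₀ := h.2.2.2.choose with hτ₀
    show decide ((v, w) ∈ (push ι ρ κ σ hρ hσ (prod X G)).E ∧
      (push ι ρ κ σ hρ hσ (prod X G)).π (v, w) = τ) =
      decide (((ρ v).1, (σ w).1) ∈ X.E ∧ X.π ((ρ v).1, (σ w).1) = τ₀)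
    rw [decide_eq_decide, hmem, hmem2]
    have hpi : (push ι ρ κ σ hρ hσ (prod X G)).π (v, w) = τ ↔
        X.π ((ρ v).1, (σ w).1) = τ₀ := by
      constructor
      · intro he
        funext b
        have h1 : lE R₁ R₂ (Sum.map (X.π ((ρ v).1, (σ w).1)) (G.π ((ρ v).2, (σ w).2))
            ((rE d R₁ R₂).symm (rE d R₁ R₂ (Sum.inl b)))) = τ (rE d R₁ R₂ (Sum.inl b)) :=
          congrFun he _
        rw [← hspec] at h1
        rw [Equiv.symm_apply_apply] at h1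
        exact Sum.inl_injective ((lE R₁ R₂).injective h1)
      · intro he
        funext b
        rw [← hspec, ← he]
        rfl
    rw [hpi]
    tauto
  · rw [dif_neg h]
    show decide ((v, w) ∈ (push ι ρ κ σ hρ hσ (prod X G)).E ∧
      (push ι ρ κ σ hρ hσ (prod X G)).π (v, w) = τ) = false
    rw [decide_eq_false_iff_not]
    rintro ⟨h1, h2⟩
    rw [hmem, hmem2] at h1
    exact h ⟨h1.1, h1.2.1, h1.2.2.2, X.π ((ρ v).1, (σ w).1), fun b => congrFun h2 b⟩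

theorem transfer (hd : 0 < d) (hR1 : 0 < R₁) (hR2 : 0 < R₂)
    (G : Pool.Agent.H76.DTO.LabelCover V₂ W₂ d R₂) (hG : G.E.Nonempty)
    (v₂ : ℝ) (hv : ∀ f g, G.frac f g ≤ v₂) (ι : Fin N₀ × V₂ → Fin N)
    (ρ : Fin N → Fin N₀ × V₂) (κ : Fin N₀ × W₂ → Fin N) (σ : Fin N → Fin N₀ × W₂)
    (hρ : ∀ v, ρ (ι v) = v) (hσ : ∀ w, σ (κ w) = w)
    (P : LabelCover (Fin N) (Fin N) d (R₁ + R₂) → Prop)
    (hP : ∀ X : LabelCover (Fin N₀) (Fin N₀) d R₁, P (push ι ρ κ σ hρ hσ (prod X G)))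
    (ε δ : ℝ) (hεδ : ε + v₂ ≤ δ) (K : MonotoneCircuit (Var N d (R₁ + R₂)))
    (hK : SeparatesOn K δ P) :
    ∃ K' : MonotoneCircuit (Var N₀ d R₁), K'.size = K.size ∧ Separates K' ε := by
  refine ⟨subst (theta G ι ρ κ σ) K, size_subst _ _, ?_, ?_⟩
  · intro X hE hX
    rw [eval_subst, ← enc_big G ι ρ κ σ hρ hσ X]
    obtain ⟨f, g, hs⟩ := sat_of_value X hR1 hd hE hX
    have hE2 := prod_nonempty X G hE hG
    refine hK.1 _ (push_nonempty ι ρ κ σ hρ hσ _ hE2) ?_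
    have h1 := prod_sat X G f g hs
    refine value_of_sat _ (by omega) hd (push_nonempty ι ρ κ σ hρ hσ _ hE2)
      (fun v => lE R₁ R₂ (Sum.inl (f (ρ v).1))) (fun w => rE d R₁ R₂ (Sum.inl (g (σ w).1))) ?_
    intro e he
    exact h1 _ ((mem_push ι ρ κ σ hρ hσ _ e).1 he).2.2
  · intro X hE hX
    rw [eval_subst, ← enc_big G ι ρ κ σ hρ hσ X]
    have hE2 := prod_nonempty X G hE hG
    refine hK.2 _ (push_nonempty ι ρ κ σ hρ hσ _ hE2) ?_ (hP X)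
    refine value_le _ (by omega) hd δ fun f g => ?_
    rw [push_fr]
    refine (prod_fr X G hR1 hR2 hd X.value v₂ (fr_le_value X) hv hE hG _ _).trans ?_
    linarith

/-- Injections of the product of the vertex sets. -/
lemma exists_emb (V₂ : Type) [Fintype V₂] [Nonempty V₂] {N₀ N : ℕ} (h0 : 0 < N₀)
    (h : N₀ * Fintype.card V₂ ≤ N) :
    ∃ (ι : Fin N₀ × V₂ → Fin N) (ρ : Fin N → Fin N₀ × V₂), ∀ v, ρ (ι v) = v := by
  have : Nonempty (Fin N₀) := ⟨⟨0, h0⟩⟩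
  have hc : Fintype.card (Fin N₀ × V₂) ≤ Fintype.card (Fin N) := by
    rw [Fintype.card_prod, Fintype.card_fin, Fintype.card_fin]
    exact h
  obtain ⟨e⟩ := Function.Embedding.nonempty_of_card_le hc
  exact ⟨e, Function.invFun e, Function.leftInverse_invFun e.injective⟩

lemma exp_aux (s : ℕ) (hs : 0 < s) (N : ℕ) (hN : (2 * s) ^ 5 ≤ N) :
    Real.exp ((N : ℝ) ^ (1 / 5 : ℝ)) ≤ Real.exp (((N / s : ℕ) : ℝ) ^ (1 / 4 : ℝ)) := by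
  apply Real.exp_le_exp.2
  have hs' : (1:ℝ) ≤ s := by exact_mod_cast hs
  have hN' : ((2 * s : ℝ)) ^ 5 ≤ N := by exact_mod_cast hN
  have hNpos : (0:ℝ) < N := lt_of_lt_of_le (by positivity) hN'
  have hsN : s ≤ N := by
    have h1 : 2 * s ≤ (2 * s) ^ 5 := Nat.le_self_pow (by norm_num) _
    omega
  have h1 : (N:ℝ) / (2 * s) ≤ ((N / s : ℕ) : ℝ) := by
    rw [div_le_iff₀ (by positivity)]
    have h2 : N < s * (N / s + 1) := Nat.lt_mul_div_succ N hs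
    have h3 : 1 ≤ N / s := Nat.one_le_div_iff hs |>.2 hsN
    have h4 : N ≤ (N / s) * (2 * s) := by nlinarith
    exact_mod_cast h4
  have h2 : (N:ℝ) ^ (1 / 5 : ℝ) ≤ ((N:ℝ) / (2 * s)) ^ (1 / 4 : ℝ) := by
    rw [Real.div_rpow hNpos.le (by positivity), le_div_iff₀ (by positivity)]
    have h3 : (2 * s : ℝ) ≤ (N:ℝ) ^ (1 / 5 : ℝ) := by
      have h4 : (2 * s : ℝ) = ((2 * s : ℝ) ^ 5) ^ (1 / 5 : ℝ) := by
        rw [← Real.rpow_natCast, ← Real.rpow_mul (by positivity)]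
        norm_num
      rw [h4]
      exact Real.rpow_le_rpow (by positivity) hN' (by norm_num)
    calc (N:ℝ) ^ (1 / 5 : ℝ) * (2 * s : ℝ) ^ (1 / 4 : ℝ)
        ≤ (N:ℝ) ^ (1 / 5 : ℝ) * ((N:ℝ) ^ (1 / 5 : ℝ)) ^ (1 / 4 : ℝ) := by
          gcongr
      _ = (N:ℝ) ^ (1 / 4 : ℝ) := by
          rw [← Real.rpow_mul hNpos.le, ← Real.rpow_add hNpos]
          norm_num
  refine h2.trans ?_
  exact Real.rpow_le_rpow (by positivity) h1 (by norm_num)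

/-- The lower bound for promised instances from the lower bound for all instances. -/
theorem promised (hmain : ∃ C : ℝ, 0 < C ∧ ∀ d R : ℕ, 2 ≤ d → 2 ≤ R → ∀ ε : ℝ,
      C * Real.log (d * R) / R ≤ ε → ε ≤ 1 → ∃ N₀ : ℕ, ∀ N ≥ N₀,
        ∀ K : MonotoneCircuit (Var N d R), Separates K ε →
          Real.exp ((N : ℝ) ^ (1 / 4 : ℝ)) ≤ K.size) :
    ∃ C : ℝ, 0 < C ∧ ∀ d R₁ R₂ : ℕ, 2 ≤ d → 2 ≤ R₁ → 0 < R₂ → ∀ ε : ℝ,
      C * Real.log (d * R₁) / R₁ ≤ ε → ε ≤ 1 → ∀ (V₂ W₂ : Type) [Fintype V₂] [Fintype W₂]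
        (G : Pool.Agent.H76.DTO.LabelCover V₂ W₂ d R₂), G.E.Nonempty →
        ∀ v₂ : ℝ, (∀ f g, G.frac f g ≤ v₂) →
        ∀ P : ∀ N : ℕ, LabelCover (Fin N) (Fin N) d (R₁ + R₂) → Prop,
        (∀ (N₀ N : ℕ) (ι : Fin N₀ × V₂ → Fin N)
          (ρ : Fin N → Fin N₀ × V₂) (κ : Fin N₀ × W₂ → Fin N) (σ : Fin N → Fin N₀ × W₂)
          (hρ : ∀ v, ρ (ι v) = v) (hσ : ∀ w, σ (κ w) = w)
          (X : LabelCover (Fin N₀) (Fin N₀) d R₁), P N (push ι ρ κ σ hρ hσ (prod X G))) →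
        ∃ N₁ : ℕ, ∀ N ≥ N₁, ∀ K : MonotoneCircuit (Var N d (R₁ + R₂)),
          ∀ δ : ℝ, ε + v₂ ≤ δ → SeparatesOn K δ (P N) →
            Real.exp ((N : ℝ) ^ (1 / 5 : ℝ)) ≤ K.size := by
  obtain ⟨C, hC, hmain⟩ := hmain
  refine ⟨C, hC, ?_⟩
  intro d R₁ R₂ hd hR1 hR2 ε hε hε1 V₂ W₂ _ _ G hG v₂ hv P hP
  obtain ⟨N₀, hN₀⟩ := hmain d R₁ hd hR1 ε hε hε1
  obtain ⟨e, he⟩ := hG
  have : Nonempty V₂ := ⟨e.1⟩
  have : Nonempty W₂ := ⟨e.2⟩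
  set s := max (Fintype.card V₂) (Fintype.card W₂) with hs
  have hs0 : 0 < s := lt_of_lt_of_le Fintype.card_pos (le_max_left _ _)
  refine ⟨(2 * s) ^ 5 + s * (N₀ + 1), fun N hN K δ hδ hK => ?_⟩
  have hN1 : (2 * s) ^ 5 ≤ N := by omega
  have hN2 : s * (N₀ + 1) ≤ N := by omega
  have hN3 : N₀ + 1 ≤ N / s := (Nat.le_div_iff_mul_le hs0).2 (by rw [mul_comm]; exact hN2)
  have hN4 : N / s * s ≤ N := Nat.div_mul_le_self N s
  obtain ⟨ι, ρ, hρ⟩ := exists_emb V₂ (N₀ := N / s) (N := N) (by omega)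
    ((Nat.mul_le_mul_left _ (le_max_left _ _)).trans hN4)
  obtain ⟨κ, σ, hσ⟩ := exists_emb W₂ (N₀ := N / s) (N := N) (by omega)
    ((Nat.mul_le_mul_left _ (le_max_right _ _)).trans hN4)
  obtain ⟨K', hK1, hK2⟩ := transfer (by omega) (by omega) hR2 G ⟨e, he⟩ v₂ hv ι ρ κ σ hρ hσ (P N)
    (hP _ _ ι ρ κ σ hρ hσ) ε δ hδ K hK
  have h1 := hN₀ (N / s) (by omega) K' hK2
  rw [hK1] at h1
  exact (exp_aux s hs0 N hN1).trans h1

end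

end Pool.H87.PR
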